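import Pool.Agent.Q212.ZC5

/-!
# Strongly zero-dimensional realcompact spaces are N-compact without choice

In every model of Zermelo set theory (so in every model of ZF): every strongly zero-dimensional
Tychonoff space that is homeomorphic to a closed subspace of a power of the real line is
homeomorphic to a closed subspace of a power of the discrete space of the natural numbers.
-/

namespace Pool.Agent.Results.MP_f5c99b_lc.NCompact

open FirstOrder FirstOrder.Language
open Pool.Agent.Helper672.Plain (LSet Zermelo)
open Pool.Agent.Q212.ZTop

universe u

theorem result (M : Type u) [LSet.Structure M] [Zermelo M] (t x : M) (h1 : IsTychonoff t x)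
    (h2 : IsStronglyZeroDim t x) (h3 : IsRealcompact t x) : IsNCompact t x :=
  Pool.Agent.Q212.ZC.result_aux h1 h2 h3

end Pool.Agent.Results.MP_f5c99b_lc.NCompact
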